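import Pool.Agent.Helper74.CO.Goals2
import Pool.Agent.Helper30.CO.GBL

/-!
Project CO (MP_c5396e_co, captain helper74), packet GSP (special dots of the Golomb arrays).
-/

set_option autoImplicit false

namespace Pool.Agent.Helper54.CO

open Finset Pool.Agent.Helper74.CO Pool.Agent.Helper30.CO

/-- an exponent of `1` in the box is `0` or the period -/
theorem quot01 {q : ℝ} (hq0 : 0 < q - 1) {qz u : ℤ} (hqz : (qz : ℝ) = q - 1) (h : qz ∣ u)
    (h1 : -(3 / 10 : ℝ) ≤ (u : ℝ) / (q - 1)) (h2 : (u : ℝ) / (q - 1) ≤ 13 / 10) :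
    (u : ℝ) / (q - 1) = 0 ∨ (u : ℝ) / (q - 1) = 1 := by
  obtain ⟨m, hm⟩ := h
  have hmR : (u : ℝ) = (q - 1) * m := by
    rw [hm]
    push_cast
    rw [hqz]
  have h5 : (u : ℝ) / (q - 1) = m := by
    rw [hmR]
    field_simp
  rw [h5] at h1 h2 ⊢
  have h6 : (-1 : ℝ) < m := by linarith
  have h7 : (m : ℝ) < 2 := by linarith
  have h8 : (-1 : ℤ) < m := by exact_mod_cast h6
  have h9 : m < (2 : ℤ) := by exact_mod_cast h7
  have h10 : m = 0 ∨ m = 1 := by omega
  rcases h10 with rfl | rfl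
  · left
    simp
  · right
    simp

theorem t_GSP (hB : BUMPS) (hS : GSOL) (hGP : GP) (hGAB : GAB) (hGJ : GJ) (hL : GLI) (hI : IND) :
    GSP := by
  obtain ⟨K, κ, η₀, ε₀, hκ, hη, hε, -, -, hB2, hB3⟩ := hB
  obtain ⟨q1, hq1⟩ := hGAB K κ hκ
  obtain ⟨q2, hq2⟩ := hGP K κ hκ
  obtain ⟨q3, hq3⟩ := hGJ K κ hκ
  refine ⟨η₀ / 2, 1 / 10, q1 + q2 + q3 + 10, by positivity, by norm_num, ?_⟩
  intro F _ _ α β u v hN hα hβ hcase hu1 hu2 hv1 hv2
  classical
  have h3 : 3 ≤ Fintype.card F := by omega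
  have hqR : (10 : ℝ) ≤ (Fintype.card F : ℝ) := by exact_mod_cast (by omega : 10 ≤ Fintype.card F)
  have hq0 : (0 : ℝ) < (Fintype.card F : ℝ) - 1 := by linarith
  obtain ⟨hα0, hα1, -, -⟩ := hI F α hα h3
  obtain ⟨hβ0, hβ1, -, -⟩ := hI F β hβ h3
  have hqz : (((Fintype.card F : ℤ) - 1 : ℤ) : ℝ) = (Fintype.card F : ℝ) - 1 := by
    push_cast
    ring
  -- the box
  have hub1 : -(3 / 10 : ℝ) * (Fintype.card F - 1) ≤ u := by linarith
  have hub2 : (u : ℝ) ≤ 13 / 10 * (Fintype.card F - 1) := by linarith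
  have hvb1 : -(3 / 10 : ℝ) * (Fintype.card F - 1) ≤ v := by linarith
  have hvb2 : (v : ℝ) ≤ 13 / 10 * (Fintype.card F - 1) := by linarith
  have hu1' : -(3 / 10 : ℝ) ≤ (u : ℝ) / ((Fintype.card F : ℝ) - 1) := by
    rw [le_div_iff₀ hq0]
    exact hub1
  have hu2' : (u : ℝ) / ((Fintype.card F : ℝ) - 1) ≤ 13 / 10 := by
    rw [div_le_iff₀ hq0]
    exact hub2
  have hv1' : -(3 / 10 : ℝ) ≤ (v : ℝ) / ((Fintype.card F : ℝ) - 1) := by
    rw [le_div_iff₀ hq0]
    exact hvb1
  have hv2' : (v : ℝ) / ((Fintype.card F : ℝ) - 1) ≤ 13 / 10 := by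
    rw [div_le_iff₀ hq0]
    exact hvb2
  set e : F := α ^ u with he_def
  set f : F := β ^ v with hf_def
  have he0 : e ≠ 0 := zpow_ne_zero _ hα0
  have hf0 : f ≠ 0 := zpow_ne_zero _ hβ0
  have hef0 : e + f = 0 := by
    rcases hcase with ⟨h1, h2⟩ | ⟨h1, h2⟩ <;> rw [h1, h2] <;> ring
  have hef : e + f ≠ 1 := by
    rw [hef0]
    exact zero_ne_one
  have hsol := hS F α β u v h3 hα hβ (by rw [← he_def, ← hf_def]; exact hef)
  rw [← hf_def, ← he_def] at hsol
  have hX := card_Xg e f he0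
  have hXR : η₀ / 2 * (Fintype.card F : ℝ) ≤ η₀ * #(Xg e f) := by
    have h1 : (Fintype.card F : ℝ) ≤ #(Xg e f) + 5 := by exact_mod_cast hX
    nlinarith
  have hU1 : U01 (Xg e f) (ag α) := fun x hx => by
    simp only [Xg, mem_filter, mem_univ, true_and] at hx
    exact ag_mem hI hα h3 hx.1
  have hU2 : U01 (Xg e f) (fun x => ag α (Mg e f x)) := fun x hx =>
    ag_mem hI hα h3 (Mg_ne he0 hf0 hx).1
  have hU3 : U01 (Xg e f) (cg β) := fun x hx => by
    simp only [Xg, mem_filter, mem_univ, true_and] at hx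
    exact ag_mem hI hβ h3 (sub_ne_zero.2 (Ne.symm hx.2.1))
  have hU4 : U01 (Xg e f) (fun x => cg β (Mg e f x)) := fun x hx =>
    ag_mem hI hβ h3 (Mg_ne he0 hf0 hx).2
  refine hXR.trans (le_trans ?_ (Nat.cast_le.2 hsol))
  by_cases h11 : (-1 : F) = 1
  · -- characteristic 2
    have he : e = 1 := by
      rcases hcase with ⟨h1, -⟩ | ⟨h1, -⟩
      · exact h1.trans h11
      · exact h1
    have hf : f = 1 := by
      rcases hcase with ⟨-, h1⟩ | ⟨-, h1⟩
      · exact h1
      · exact h1.trans h11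
    have hud : ((Fintype.card F : ℤ) - 1) ∣ u := by
      rw [← hα1, ← he_def]
      exact he
    have hvd : ((Fintype.card F : ℤ) - 1) ∣ v := by
      rw [← hβ1, ← hf_def]
      exact hf
    have hE := hq3 F α β e f (by omega) hα hβ hef0
    have := hB3 F (Xg e f) (ag α) (cg β) _ _ hU1 hU3 hE (quot01 hq0 hqz hud hu1' hu2')
      (quot01 hq0 hqz hvd hv1' hv2')
    refine this.trans (Nat.cast_le.2 (card_le_card ?_))
    intro x hx
    rw [mem_filter] at hx ⊢
    have hM : Mg e f x = x := by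
      have h2 : (1 : F) + 1 = 0 := by
        nth_rw 1 [← h11]
        ring
      unfold Mg
      rw [he, hf, h2, sub_self, zero_mul, zero_sub, h11, sub_zero, one_mul, div_one]
    rw [hM]
    exact hx
  · rcases hcase with ⟨he, hf⟩ | ⟨he, hf⟩
    · -- `e = -1`, `f = 1`
      have hvd : ((Fintype.card F : ℤ) - 1) ∣ v := by
        rw [← hβ1, ← hf_def]
        exact hf
      have hv' := quot01 hq0 hqz hvd hv1' hv2'
      have hE := hq2 F β e f (by omega) hβ he0 hf0 hef (fun h => h11 (he.symm.trans h.1))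
      have := hB2 F (Xg e f) (cg β) (fun x => cg β (Mg e f x))
        ((v : ℝ) / ((Fintype.card F : ℝ) - 1)) hU3 hU4 hE
        (by rcases hv' with h | h <;> rw [h] <;> linarith)
        (by rcases hv' with h | h <;> rw [h] <;> linarith)
      refine this.trans (Nat.cast_le.2 (card_le_card ?_))
      intro x hx
      rw [mem_filter] at hx ⊢
      refine ⟨hx.1, ?_, hx.2⟩
      have hx0 : x ≠ 0 := by
        have := hx.1
        simp only [Xg, mem_filter, mem_univ, true_and] at this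
        exact this.1
      have hM : Mg e f x = -x := by
        unfold Mg
        rw [he, hf, sub_self, sub_zero]
        have : (-1 + 1 : F) * x - -1 = 1 := by ring
        rw [this, div_one]
        ring
      have hL' := hL F α hα h3 h11
      rw [hM, hL'.2 u he hub1 hub2]
      exact hL'.1 x hx0
    · -- `e = 1`, `f = -1`
      have hud : ((Fintype.card F : ℤ) - 1) ∣ u := by
        rw [← hα1, ← he_def]
        exact he
      have hu' := quot01 hq0 hqz hud hu1' hu2'
      have hE := hq1 F α e f (by omega) hα he0 hf0 hef (fun h => h11 (h.1.symm.trans he))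
      have := hB2 F (Xg e f) (ag α) (fun x => ag α (Mg e f x))
        ((u : ℝ) / ((Fintype.card F : ℝ) - 1)) hU1 hU2 hE
        (by rcases hu' with h | h <;> rw [h] <;> linarith)
        (by rcases hu' with h | h <;> rw [h] <;> linarith)
      refine this.trans (Nat.cast_le.2 (card_le_card ?_))
      intro x hx
      rw [mem_filter] at hx ⊢
      refine ⟨hx.1, hx.2, ?_⟩
      have hx1 : 1 - x ≠ 0 := by
        have := hx.1
        simp only [Xg, mem_filter, mem_univ, true_and] at this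
        exact sub_ne_zero.2 (Ne.symm this.2.1)
      have hM : 1 - Mg e f x = -(1 - x) := by
        unfold Mg
        rw [he, hf]
        have : (1 + -1 : F) * x - 1 = -1 := by ring
        rw [this, div_neg, div_one]
        ring
      have hL' := hL F β hβ h3 h11
      have hc1 : cg β x = ag β (1 - x) := rfl
      have hc2 : cg β (Mg e f x) = ag β (-(1 - x)) := by
        rw [← hM]
        rfl
      rw [hc1, hc2, hL'.2 v hf hvb1 hvb2]
      exact hL'.1 (1 - x) hx1

end Pool.Agent.Helper54.CO
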